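import Mathlib
import Pool.Agent.Y918.GB.Sch

/-!
# The axiom (SC) for the complex exponential function: random combinations, bounded degree

For every `j ≤ n` let `x_{j,1}, …, x_{j,k}` be arbitrary complex numbers which are linearly independent
over `ℚ` (for different `j` they may be the same), and let

  `z_j = ζ_j + a_{j,1} x_{j,1} + ⋯ + a_{j,k} x_{j,k}`,

where `a = (a_{j,i})` is a random matrix with entries in a finite set `A` of rational numbers, for
instance `A = {0, 1}`, and `ζ_j` is an arbitrary complex number, for instance `0`.  Schanuel's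
conjecture, the axiom (SC), says that the `2 n` numbers `z_1, …, z_n, e^{z_1}, …, e^{z_n}` have
transcendence degree at least `n` if the `z_j` are linearly independent.

**Theorem.** For every degree bound `D` there are `k₀`, `C` and `δ > 0`, which depend only on `n`, `D`
and `l`, such that for all `k ≥ k₀` and all such `x` one can choose for every `j` one of the two
numbers `z_j`, `e^{z_j}` (the choice depends on `x` only) with the following property.  Let
`s_1, …, s_l` be numbers which satisfy no nonzero polynomial relation with algebraic coefficients of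
degree at most `D` in each of them.  Then, for all `A` and `ζ` and for all but `C |A|^(n k - δ k)` of
the `|A|^(n k)` matrices, the same is true of `s_1, …, s_l` together with the `n` chosen numbers.

The proof is the theorem `Pool.Agent.Y918.GB.sch1` of the starting library, where it was not handed in:
either many blocks of the `x_i` span spaces of large dimension over the field of the algebraic numbers,
or there are few logarithms of algebraic numbers among the rational combinations (Baker's theorem).  In
the first case the combinations are treated by an additive grid theorem and in the second case their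
exponentials by a multiplicative one (strong six exponentials theorem of Roy), with an iterated
Cauchy-Schwarz inequality.
-/

set_option autoImplicit false

namespace Pool.Agent.Results.MP_209724_lc.RandomCombinations

open Module Finset
open Pool.Agent.H301R2.SSE (QB mem_QB)
open Pool.Agent.W245 (IndepOver IndepT famExt famExt_finite)
open Pool.Agent.Y918.RT (pw)
open Pool.Agent.Y918.RP (expoS expoS_injective)
open Pool.Agent.Y918.GB (sch1 several)

/-- The numbers `x_i` satisfy no nonzero polynomial relation with algebraic coefficients of degree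
at most `D` in each of them. -/
def NoRelation (D : ℕ) {ι : Type} (x : ι → ℂ) : Prop :=
  ∀ p : MvPolynomial ι (algebraicClosure ℚ ℂ), (∀ i, p.degreeOf i ≤ D) →
    MvPolynomial.aeval x p = 0 → p = 0

/-- The number `ζ_j + ∑_i a_{j,i} x_{j,i}`. -/
noncomputable def comb {n k : ℕ} (ζ : Fin n → ℂ) (x : Fin n → Fin k → ℂ) (a : Fin n → Fin k → ℚ)
    (j : Fin n) : ℂ := ζ j + ∑ i : Fin k, (a j i : ℂ) * x j i

/-- The space generated by the monomials of degree at most `D` in each variable. -/
noncomputable def monSpan (D : ℕ) {l : ℕ} (s : Fin l → ℂ) : Submodule QB ℂ :=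
  Submodule.span QB (Set.range fun e : Fin l → Fin (D + 1) => ∏ i, s i ^ (e i : ℕ))

theorem monSpan_finite (D : ℕ) {l : ℕ} (s : Fin l → ℂ) : Module.Finite QB (monSpan D s) ∧
    finrank QB (monSpan D s) ≤ (D + 1) ^ l := by
  constructor
  · exact FiniteDimensional.span_of_finite QB (Set.finite_range _)
  · refine (finrank_range_le_card _).trans ?_
    rw [Fintype.card_fun, Fintype.card_fin, Fintype.card_fin]

theorem zero_of_noRelation {l D : ℕ} {s : Fin l → ℂ} (hs : NoRelation D s)
    (c : (Fin l → Fin (D + 1)) → QB)
    (h : ∑ e, ((c e : QB) : ℂ) * ∏ i, s i ^ (e i : ℕ) = 0) (e : Fin l → Fin (D + 1)) : c e = 0 := by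
  classical
  let ex : (Fin l → Fin (D + 1)) → (Fin l →₀ ℕ) := fun e =>
    Finsupp.equivFunOnFinite.symm (fun i => (e i : ℕ))
  have hex : Function.Injective ex := by
    intro e e' he
    funext i
    exact Fin.ext (DFunLike.congr_fun he i)
  let p : MvPolynomial (Fin l) QB := ∑ e, MvPolynomial.monomial (ex e) (c e)
  have hcoef : ∀ M, p.coeff M = ∑ e, if ex e = M then c e else 0 := by
    intro M
    change MvPolynomial.coeff M (∑ e, MvPolynomial.monomial (ex e) (c e)) = _
    rw [MvPolynomial.coeff_sum]
    refine Finset.sum_congr rfl fun e _ => ?_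
    rw [MvPolynomial.coeff_monomial]
  have hdeg : ∀ i, p.degreeOf i ≤ D := by
    intro i
    rw [MvPolynomial.degreeOf_le_iff]
    intro M hM
    rw [MvPolynomial.mem_support_iff, hcoef] at hM
    obtain ⟨e, _, he⟩ := Finset.exists_ne_zero_of_sum_ne_zero hM
    by_cases h1 : ex e = M
    · rw [← h1]
      exact Nat.le_of_lt_succ (e i).2
    · rw [if_neg h1] at he
      exact absurd rfl he
  have hval : MvPolynomial.aeval s p = 0 := by
    change MvPolynomial.aeval s (∑ e, MvPolynomial.monomial (ex e) (c e)) = 0
    rw [map_sum, ← h]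
    refine Finset.sum_congr rfl fun e _ => ?_
    rw [MvPolynomial.aeval_monomial]
    refine congrArg₂ (fun a b => a * b) rfl ?_
    rw [Finsupp.prod_fintype _ _ (fun i => pow_zero _)]
    rfl
  have hp := hs p hdeg hval
  have h2 := hcoef (ex e)
  rw [hp, MvPolynomial.coeff_zero] at h2
  rw [Finset.sum_eq_single e] at h2
  · rw [if_pos rfl] at h2
    exact h2.symm
  · intro e' _ hne
    rw [if_neg (fun h3 => hne (hex h3))]
  · intro h3
    exact absurd (Finset.mem_univ _) h3

theorem noRelation_sum {l n D : ℕ} {s : Fin l → ℂ} (hs : NoRelation D s) (y : Fin n → ℂ)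
    (h : IndepT (monSpan D s) (fun j => pw D (y j))) : NoRelation D (Sum.elim s y) := by
  classical
  intro p hdeg h0
  have hsupp : p.support ⊆
      (univ : Finset ((Fin l → Fin (D + 1)) × (Fin n → Fin (D + 1)))).image expoS := by
    intro M hM
    rw [Finset.mem_image]
    refine ⟨(fun i => ⟨M (Sum.inl i),
      Nat.lt_succ_of_le ((MvPolynomial.degreeOf_le_iff.1 (hdeg (Sum.inl i))) M hM)⟩,
      fun j => ⟨M (Sum.inr j),
      Nat.lt_succ_of_le ((MvPolynomial.degreeOf_le_iff.1 (hdeg (Sum.inr j))) M hM)⟩),
      Finset.mem_univ _, ?_⟩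
    ext v
    rcases v with v | v
    · rfl
    · rfl
  have h1 : ∑ t : Fin n → Fin (D + 1), (∑ e : Fin l → Fin (D + 1),
      ((p.coeff (expoS (e, t)) : QB) : ℂ) * ∏ i, s i ^ (e i : ℕ)) *
      ∏ j, pw D (y j) (t j) = 0 := by
    rw [← h0, MvPolynomial.aeval_def, MvPolynomial.eval₂_eq']
    rw [Finset.sum_subset hsupp (by
      intro M _ hM
      rw [MvPolynomial.notMem_support_iff.1 hM, map_zero, zero_mul])]
    rw [Finset.sum_image (fun a _ b _ h => expoS_injective h), Fintype.sum_prod_type_right]
    refine Finset.sum_congr rfl fun t _ => ?_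
    rw [Finset.sum_mul]
    refine Finset.sum_congr rfl fun e _ => ?_
    rw [mul_assoc]
    refine congrArg (fun z => ((p.coeff (expoS (e, t)) : QB) : ℂ) * z) ?_
    rw [Fintype.prod_sum_type]
    rfl
  have h2 := h _ (fun t => Submodule.sum_mem _ fun e _ => by
    have h3 := Submodule.smul_mem (monSpan D s) (p.coeff (expoS (e, t)))
      (Submodule.subset_span (Set.mem_range_self e))
    rw [Algebra.smul_def] at h3
    exact h3) h1
  have h4 : ∀ (e : Fin l → Fin (D + 1)) (t : Fin n → Fin (D + 1)),
      p.coeff (expoS (e, t)) = 0 := fun e t =>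
    zero_of_noRelation hs (fun e => p.coeff (expoS (e, t))) (h2 t) e
  ext1 M
  rw [MvPolynomial.coeff_zero]
  by_cases hM : M ∈ p.support
  · obtain ⟨e, _, rfl⟩ := Finset.mem_image.1 (hsupp hM)
    exact h4 e.1 e.2
  · exact MvPolynomial.notMem_support_iff.1 hM

open Classical in
/-- **Main result.** -/
theorem result (l n D : ℕ) : ∃ (k₀ C : ℕ) (δ : ℝ), 0 < δ ∧ ∀ k ≥ k₀, ∀ x : Fin n → Fin k → ℂ,
    (∀ j, LinearIndependent ℚ (x j)) → ∃ c : Fin n → Bool, ∀ A : Finset ℚ, A.Nonempty →
    ∀ s : Fin l → ℂ, NoRelation D s → ∀ ζ : Fin n → ℂ,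
    (((Fintype.piFinset fun _ : Fin n => Fintype.piFinset fun _ : Fin k => A).filter
      (fun a : Fin n → Fin k → ℚ => ¬ NoRelation D (Sum.elim s
        (fun j => if c j = true then comb ζ x a j else Complex.exp (comb ζ x a j))))).card : ℝ) ≤
      C * (A.card : ℝ) ^ ((n * k : ℝ) - δ * k) := by
  obtain ⟨k₀, C, δ, hδ, h⟩ := sch1 ((D + 1) ^ l * (D + 1) ^ n) D
  refine ⟨k₀, n * C, δ, hδ, fun k hk x hx => ?_⟩
  choose c hc using fun j => h k hk (x j) (hx j)
  refine ⟨c, fun A hA s hs ζ => ?_⟩
  obtain ⟨hf, hr⟩ := monSpan_finite D s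
  refine le_trans (Nat.cast_le.2 (Finset.card_le_card ?_))
    (several (E := Fin (D + 1)) (N := (D + 1) ^ l) (N₀ := (D + 1) ^ l * (D + 1) ^ n)
      (by rw [Fintype.card_fin]) hA (monSpan D s) hf hr
      (fun j p => pw D (bif c j then ζ j + ∑ i, (p i : ℂ) * x j i else
        Complex.exp (ζ j + ∑ i, (p i : ℂ) * x j i)))
      (fun j W' hW' hWN' => hc j A hA W' hW' hWN' (ζ j)))
  intro a ha
  rw [Finset.mem_filter] at ha ⊢
  refine ⟨ha.1, fun hI => ha.2 ?_⟩
  have h1 := noRelation_sum hs (fun j => bif c j then comb ζ x a j else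
    Complex.exp (comb ζ x a j)) hI
  convert h1 using 3 with j
  cases c j <;> rfl

end Pool.Agent.Results.MP_209724_lc.RandomCombinations
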