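import Pool.Agent.N671.DA.Mat
import Pool.Agent.Results.MP_209724_lc.RandomCombinations

/-!
# The axiom (SC) in bounded degree at the best approximation vectors of systems of linear forms

For every `j ≤ n` let `x_{j,1}, …, x_{j,k}` be arbitrary complex numbers which are linearly independent over `ℚ`, and let
`z_j = ζ_j + a_{j,1} x_{j,1} + ⋯ + a_{j,k} x_{j,k}` with integers `a_{j,i}`. Let `α` be a real matrix with `n k` rows and `h`
columns, `β` in `ℝ^h` and `τ > 0`. We consider the integer vectors `a = (a_{j,i})` such that
`‖(a α)_l - β_l‖ ≤ c |a| ^ (-τ)` for `l = 1, …, h`, `‖x‖` the distance to the nearest integer and `|a|` the maximum norm; for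
`β = 0`, `c = 1` and `τ = n k / h` they include all best approximation vectors of the system of linear forms `a α`, by the
theorem of Minkowski. We show that for all `α` outside a set of Hausdorff dimension at most
`(n k - 1) h + (h + n k - δ k) / (1 + τ)`, which is less than `n k h` for `τ = n k / h`, and so for almost all `α`, the
following is true for all large `a` of this kind: the numbers `s_1, …, s_l` together with one of the two numbers `z_j`,
`e^{z_j}` for every `j` (the choice depends on `x` only) satisfy no relation of degree at most `D` in each of them over the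
algebraic numbers, if this is true of `s_1, …, s_l`.

The best approximation vectors are a very sparse sequence, about `log T` vectors of norm at most `T`, and so this does not
follow from the size of the exceptional set.

Proof. The starting theorem `RandomCombinations` of this problem (library `Pool.Agent.Y918.GB`) bounds the number of
exceptional matrices with entries in `[-T, T]` by `C T^(n k - δ k)`. The matrices `α` with `‖(a α)_l - β_l‖ ≤ c |a| ^ (-τ)`
form neighbourhoods of parallel affine subspaces, covered by cubes of side `|a| ^ (-1 - τ)` (`Pool.Agent.N671.DA`).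
-/

set_option autoImplicit false

namespace Pool.Agent.Results.MP_209724_lc.BestApproximations

open Pool.Agent.N671.DA (Near mat approx_matrices shrink)
open Pool.Agent.Results.MP_209724_lc.RandomCombinations (NoRelation comb)

/-- **The axiom (SC) in bounded degree at the best approximation vectors.** For all `l`, `n ≥ 1` and `D` there are `k₀` and
`δ > 0` such that for all `k ≥ k₀` and all complex `x_{j,i}` such that `x_{j,1}, …, x_{j,k}` are linearly independent over `ℚ`
for every `j ≤ n` there is a choice of one of the numbers `z_j`, `e^{z_j}` for every `j`, where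
`z_j = ζ_j + ∑_i a_{j,i} x_{j,i}`, with the following property. Let `s_1, …, s_l` satisfy no nonzero polynomial relation with
algebraic coefficients of degree at most `D` in each of them, and let `ζ ∈ ℂ^n`, `β ∈ ℝ^h` and `τ > 0`. For all real
matrices `α` with `n k` rows and `h` columns outside a set of Hausdorff dimension at most
`(n k - 1) h + (h + n k - δ k) / (1 + τ)` and all `c'`, for all large integer vectors `a` with
`‖(a α)_m - β_m‖ ≤ c' |a| ^ (-τ)` for `m = 1, …, h`, the numbers `s_1, …, s_l` together with the `n` chosen numbers satisfy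
no such relation. -/
theorem result (l n D : ℕ) (hn : 1 ≤ n) : ∃ (k₀ : ℕ) (δ : ℝ), 0 < δ ∧ ∀ k ≥ k₀, ∀ x : Fin n → Fin k → ℂ,
    (∀ j, LinearIndependent ℚ (x j)) → ∃ c : Fin n → Bool, ∀ s : Fin l → ℂ, NoRelation D s → ∀ ζ : Fin n → ℂ,
    ∀ (h : ℕ) (β : Fin h → ℝ) (τ : ℝ), 0 < τ →
      ∃ E : Set (Fin (n * k) × Fin h → ℝ),
        dimH E ≤ ENNReal.ofReal (((n : ℝ) * k - 1) * h + (h + ((n : ℝ) * k - δ * k)) / (1 + τ)) ∧
        ∀ α, α ∉ E → ∀ c' : ℝ, ∃ Q : ℝ, ∀ a : Fin (n * k) → ℤ, Q ≤ ‖a‖ → Near α β a (c' * ‖a‖ ^ (-τ)) →
          NoRelation D (Sum.elim s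
            (fun j => if c j = true then comb ζ x (mat a) j else Complex.exp (comb ζ x (mat a) j))) := by
  obtain ⟨k₀, C, δ, hδ, hR⟩ := RandomCombinations.result l n D
  refine ⟨max k₀ 1, min δ 1, lt_min hδ one_pos, fun k hk x hx => ?_⟩
  obtain ⟨c, hc⟩ := hR k ((le_max_left _ _).trans hk) x hx
  refine ⟨c, fun s hs ζ h β τ hτ => ?_⟩
  have hk1 : 1 ≤ k := (le_max_right _ _).trans hk
  obtain ⟨E, hE, hE2⟩ := approx_matrices (n := n) (k := k) (h := h) (C₀ := (C : ℝ)) (δ := min δ 1)
    (Nat.one_le_iff_ne_zero.2 (by positivity))
    (fun a : Fin n → Fin k → ℚ => ¬ NoRelation D (Sum.elim s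
      (fun j => if c j = true then comb ζ x a j else Complex.exp (comb ζ x a j))))
    (Nat.cast_nonneg C) (lt_min hδ one_pos) (min_le_right _ _)
    (fun A hA => by
      have h9 := (hc A hA s hs ζ).trans (shrink (n := n) (k := k) (δ := δ) (Nat.cast_nonneg C) hA.card_pos)
      refine le_of_eq_of_le ?_ h9
      congr!) β hτ
  refine ⟨E, hE, fun α hα c' => ?_⟩
  obtain ⟨Q, hQ⟩ := hE2 α hα c'
  exact ⟨Q, fun a ha h1 => not_not.1 (hQ a ha h1)⟩

end Pool.Agent.Results.MP_209724_lc.BestApproximations
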