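import Pool.Agent.N625.AP.Base
import Pool.Agent.R347.GS.Struct

/-!
# The theorem of Gel'fond and Schneider over algebraically closed fields of approximable numbers

Let `q_0, q_1, …` be a sequence of integers `≥ 2`, and let `tower h` be the `h`-fold iterate of
`n ↦ 2 ^ n`. A complex number is *approximable* if, for some `h` and every `κ`, for all large `k` it
has an algebraic approximation of degree at most `tower h (q_k)`, with a polynomial over `ℤ` with
coefficients of absolute value at most `tower h (q_k)`, and with an error of at most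
`1 / tower κ (q_k)`. A real number is *rationally approximable* if the approximations can be chosen in
`ℚ`, with denominators at most `tower h (q_k)`. The approximable numbers form an algebraically closed
field `K`, the rationally approximable numbers form a field `R`, and `R ⊆ K`. For suitable `q` both
are uncountable, and `K` has transcendence degree the cardinality of the continuum.

**Theorem.** Let `l ≠ 0` be a complex number with `exp l ∈ K`, and let `ζ ∈ K`. Then
`exp (ζ l) ∈ K` if and only if `ζ ∈ R`; otherwise `exp (ζ l)` is transcendental over `K`. More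
generally, for every complex `s` the set of all `ζ ∈ K` with `exp ((s + ζ) l) ∈ K` is empty or a coset
of `R`. For every complex `s ≠ 0` the set of all `ζ ∈ K` with `exp (ζ s) ∈ K` is zero or a line
`R ζ₀`. The algebraic numbers in `R` are rational.

For algebraic `ζ` and `exp l` this is the theorem of Gel'fond and Schneider. The proof is a
quantitative form of it, uniform in all parameters (library `Pool.Agent.R347.GS` of the starting
files, where the theorem was not handed in).
-/

set_option autoImplicit false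

namespace Pool.Agent.Results.MP_209724_lc.GelfondSchneiderFields

open Pool.Agent.N625.AP Complex

/-- the statements of the theorem -/
structure Good (K : IntermediateField ℚ ℂ) (R : IntermediateField ℚ ℝ) : Prop where
  gelfond : ∀ l ζ : ℂ, l ≠ 0 → exp l ∈ K → ζ ∈ K → ((exp (ζ * l) ∈ K ↔ ∃ x ∈ R, ζ = (x : ℝ)) ∧
    ((¬ ∃ x ∈ R, ζ = (x : ℝ)) → Transcendental K (exp (ζ * l))))
  coset : ∀ l s ζ ζ' : ℂ, l ≠ 0 → exp l ∈ K → ζ ∈ K → ζ' ∈ K → exp ((s + ζ) * l) ∈ K →
    (exp ((s + ζ') * l) ∈ K ↔ ∃ x ∈ R, ζ' - ζ = (x : ℝ))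
  line : ∀ s : ℂ, s ≠ 0 → (∀ ζ ∈ K, exp (ζ * s) ∈ K → ζ = 0) ∨
    ∃ ζ₀ ∈ K, ζ₀ ≠ 0 ∧ ∀ ζ ∈ K, (exp (ζ * s) ∈ K ↔ ∃ x ∈ R, ζ = (x : ℝ) * ζ₀)
  rational : ∀ x ∈ R, IsAlgebraic ℚ x → ∃ r : ℚ, (r : ℝ) = x

theorem good {q : ℕ → ℕ} (hq : ∀ k, 2 ≤ q k) :
    Good (Pool.Agent.R347.LW.UK hq) (Pool.Agent.R347.LW.UR hq) where
  gelfond l ζ hl h1 hζ := by
    have h2 := Pool.Agent.R347.GS.gs_iff hq l ζ hl h1 hζ
    refine ⟨h2, fun hn halg => hn (h2.1 ?_)⟩
    have := Pool.Agent.R347.LW.UK_closed hq
    obtain ⟨z, hz⟩ := minpoly.mem_range_of_degree_eq_one (Pool.Agent.R347.LW.UK hq) _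
      (IsAlgClosed.degree_eq_one_of_irreducible (Pool.Agent.R347.LW.UK hq)
        (minpoly.irreducible halg.isIntegral))
    exact hz ▸ z.2
  coset l s ζ ζ' hl h1 hζ hζ' h := Pool.Agent.R347.GS.coset hq l s ζ ζ' hl h1 hζ hζ' h
  line s hs := by
    rcases Pool.Agent.R347.GS.line hq s hs with h | ⟨ζ₀, h1, h2, h3⟩
    · exact Or.inl h
    · exact Or.inr ⟨ζ₀, h1, h2, h3⟩
  rational _ hx ha := Pool.Agent.R347.GS.rappr_alg hx ha

/-- **Main result.** -/
theorem result : Large ∧ ∀ q : ℕ → ℕ, (∀ k, 2 ≤ q k) → ∀ (K : IntermediateField ℚ ℂ)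
    (R : IntermediateField ℚ ℝ), Fields q K R → Good K R := by
  refine ⟨large, fun q hq K R h => ?_⟩
  obtain ⟨rfl, rfl⟩ := fields_eq hq h
  exact good hq

end Pool.Agent.Results.MP_209724_lc.GelfondSchneiderFields
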