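import Pool.Agent.N207.ZG.Basis
import Pool.Agent.N207.NR.Main
import Pool.Agent.N207.AX.Exp
import Pool.Agent.N227.CF.Low
import Pool.Agent.N878.AX.LINE
import Pool.Agent.N301.AX.IND
import Pool.Agent.N945.AX.ELL

/-!
# Exponential points of families of varieties are generic at almost all algebraic parameters

The axiom (SEAC) (i) asks that a free rotund variety `V` in `G_n` has exponential points `(z, exp z)` which are generic
in `V` over a finitely generated field over which `V` is defined. For varieties of dimension `n` this means that `n` of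
the coordinates are algebraically independent over this field.

Let `V_x` be varieties of dimension `n` in `G_n` which depend algebraically on the point `x` of an affine space, and let
`(z(x), exp(z(x)))` be exponential points of `V_x` which depend analytically on `x`, such that no nontrivial combination
of the functions `z_i` with integral coefficients is constant. Let `b_1, …, b_n` be coordinates such that the other
coordinates of the points `(z(x), exp(z(x)))` are algebraic over them (a transcendence basis of the function field of
the component of the variety). For one hundred percent of the points `s` over a number field `K` we show that the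
coordinates `b_1, …, b_n` of the exponential points of `V_s`, and of all conjugate varieties together, do not satisfy any
relation of growing degree and height relative to arbitrary constants, not even approximately: all nonzero polynomials
`R` satisfy `|R| > T ^ (-ψ(T)) max |coefficient|`, with any function `ψ → ∞`.

Several exponential points of the same variety can be considered together: they form an exponential point of a power of
the variety.
-/

set_option autoImplicit false

open Filter NumberField

namespace Pool.Agent.Results.MP_209724_lc.GenericSolutions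

/-- The coordinates `z_i` and `exp(z_i)` of the exponential point `(z, exp z)` of `G_n` -/
noncomputable def point {X : Type} {n : ℕ} (z : Fin n → (X → ℂ) → ℂ) (i : Fin n ⊕ Fin n) (x : X → ℂ) : ℂ :=
  Sum.elim (fun i => z i x) (fun i => Complex.exp (z i x)) i

/-- the substitution of the point `x` and of the numbers `a_1, …, a_n` in a polynomial in `n` variables over the
polynomials in the parameters -/
noncomputable def subst {X : Type} {n : ℕ} (x : X → ℂ) (a : Fin n → ℂ) :
    MvPolynomial (Fin n) (MvPolynomial X ℂ) →+* ℂ :=
  MvPolynomial.eval₂Hom (MvPolynomial.eval x) a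

/-- **Exponential points of a family of `n`-dimensional varieties in `G_n`**, with the coordinates `b_1, …, b_n` -/
structure Family {X : Type} [Fintype X] {n : ℕ} (U : Set (X → ℂ)) (z : Fin n → (X → ℂ) → ℂ)
    (b : Fin n → Fin n ⊕ Fin n) : Prop where
  isOpen : IsOpen U
  isPreconnected : IsPreconnected U
  nonempty : U.Nonempty
  analytic : ∀ i, AnalyticOnNhd ℂ (z i) U
  /-- no nontrivial combination of the `z_i` with integral coefficients is constant -/
  free : ∀ (m : Fin n → ℤ) (c : ℂ), (∀ x ∈ U, ∑ i, (m i : ℂ) * z i x = c) → m = 0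
  /-- every coordinate satisfies on `U` a polynomial equation `Q = 0` whose coefficients are polynomials in the
  parameters and the coordinates `b_1, …, b_n`, not all zero at all points of `U` -/
  finite : ∀ i, ∃ Q : Polynomial (MvPolynomial (Fin n) (MvPolynomial X ℂ)),
    (∃ x ∈ U, Q.map (subst x fun k => point z (b k) x) ≠ 0) ∧
    ∀ x ∈ U, Q.eval₂ (subst x fun k => point z (b k) x) (point z i x) = 0

/-- the points of norm at most `k` at distance at least `1 / k` from the complement of `U` -/
def Inner {X : Type} [Fintype X] (U : Set (X → ℂ)) (k : ℕ) : Set (X → ℂ) := {z | ‖z‖ ≤ k ∧ Metric.ball z (k : ℝ)⁻¹ ⊆ U}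

/-- the points with integral coordinates in `K` all of whose conjugates are at most `T` in absolute value -/
def Points (K X : Type) [Field K] [NumberField K] (T : ℝ) : Set (X → 𝓞 K) := {a | ∀ j, house (a j : K) ≤ T}

variable {K X : Type} [Field K] [NumberField K] [Fintype X] {n : ℕ}

/-- **The exceptional parameters**: `s` in `K ^ X`, all of whose conjugates `φ s` are in the compact sets
`Inner (U φ) k`, such that for some polynomial `R` in `n [K : ℚ]` variables, of partial degrees at most `k`, whose
coefficients are combinations `∑ ξ i * c i` with integers `c i` of `L` all of whose conjugates are at most `T ^ k`, the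
value at the coordinates `b_1, …, b_n` of the exponential points at all `φ s` is at most `δ` times the absolute value of
some nonzero coefficient of `R` -/
def Exceptional (U : (K →+* ℂ) → Set (X → ℂ)) (z : (K →+* ℂ) → Fin n → (X → ℂ) → ℂ)
    (b : (K →+* ℂ) → Fin n → Fin n ⊕ Fin n) (L : Type) [Field L]
    [NumberField L] (io : L →+* ℂ) (k : ℕ) (ξ : Fin k → ℂ) (T δ : ℝ) : Set (X → K) :=
  {s | (∀ φ : K →+* ℂ, (fun j => φ (s j)) ∈ Inner (U φ) k) ∧
    ∃ R : MvPolynomial ((K →+* ℂ) × Fin n) ℂ, (∀ y, R.degreeOf y ≤ k) ∧
    (∀ m, ∃ c : Fin k → 𝓞 L, (∀ i (φ : L →+* ℂ), ‖φ (c i : L)‖ ≤ T ^ (k : ℝ)) ∧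
      R.coeff m = ∑ i, ξ i * io (c i : L)) ∧
    ∃ m, R.coeff m ≠ 0 ∧
      ‖MvPolynomial.eval (fun q => point (z q.1) (b q.1 q.2) fun j => q.1 (s j)) R‖ ≤ δ * ‖R.coeff m‖}

/-- **Genericity of exponential points at almost all algebraic parameters.** Let `K` be a number field and let, for
every complex embedding `φ` of `K`, `z φ 1, …, z φ n` be analytic functions on `U φ`, no nontrivial combination of which
with integral coefficients is constant, such that all coordinates of the exponential points `(z φ x, exp(z φ x))` are
algebraic over `n` of them, `b φ 1, …, b φ n`, and the parameters `x`: exponential points of a family of `n`-dimensional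
subvarieties of `G_n`. Let `ψ` be any function which tends to infinity.

There are `ω → ∞` and `C` such that for all large `T`, all number fields `L` of degree at most `ω T`, with an embedding
in the complex numbers such that `L` contains all conjugates of `K`, all complex numbers `ξ i`, `i < ω T`, and all
integral points `d` of `K` of house at most `T` with nonzero coordinates, the proportion of the integral points `a` of
`K` of house at most `T` such that `a / d` is exceptional for `δ = T ^ (-ψ T)` is at most `C T ^ (-1 + 2 / ω T)`. So for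
100 percent of the parameters `s = a / d` all nonzero polynomials `R` of growing degree and height, relative to
arbitrary constants, satisfy `|R| > T ^ (-ψ T) * max |coefficient of R|` at the `n [K : ℚ]` coordinates
`b φ 1, …, b φ n` of the exponential points at all conjugates `φ s`. -/
theorem result (K X : Type) [Field K] [NumberField K] [Fintype X] [DecidableEq X] [Nonempty X] (n : ℕ)
    (U : (K →+* ℂ) → Set (X → ℂ)) (z : (K →+* ℂ) → Fin n → (X → ℂ) → ℂ) (b : (K →+* ℂ) → Fin n → Fin n ⊕ Fin n)
    (h : ∀ φ, Family (U φ) (z φ) (b φ)) (ψ : ℝ → ℝ) (hψ : Tendsto ψ atTop atTop) :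
    ∃ (ω : ℝ → ℕ) (C T₀ : ℝ), Tendsto ω atTop atTop ∧ Monotone ω ∧ ∀ T, T₀ ≤ T → 0 < ω T ∧
      (Points K X T).Finite ∧ (Points K X T).Nonempty ∧
      ∀ (L : Type) [Field L] [NumberField L], Module.finrank ℚ L ≤ ω T → ∀ io : L →+* ℂ,
        (∀ φ : K →+* ℂ, ∃ φ' : K →+* L, io.comp φ' = φ) →
        ∀ (ξ : Fin (ω T) → ℂ), ∀ d ∈ Points K X T, (∀ j, d j ≠ 0) →
          ({a ∈ Points K X T |
            (fun j => (a j : K) / (d j : K)) ∈ Exceptional U z b L io (ω T) ξ T (T ^ (-ψ T))}.ncard : ℝ) ≤
            C * T ^ (-1 + 2 / (ω T : ℝ)) * (Points K X T).ncard := by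
  classical
  have hpa : ∀ (φ : K →+* ℂ) (i : Fin n ⊕ Fin n), AnalyticOnNhd ℂ (point (z φ) i) (U φ) := by
    intro φ i
    rcases i with i | i
    · exact (h φ).analytic i
    · exact ((h φ).analytic i).cexp
  have hI : ∀ φ : K →+* ℂ, N207.AX.Ind (U φ) (fun k => point (z φ) (b φ k)) := by
    intro φ
    obtain ⟨e, he, hI⟩ := N207.AX.exp_ind (N945.AX.ell (N301.AX.ind N878.AX.line)) (h φ).isOpen
      (h φ).isPreconnected (h φ).nonempty (h φ).analytic (h φ).free
    exact N207.ZG.basis (f := point (z φ)) (h φ).isOpen (h φ).isPreconnected (h φ).nonempty (hpa φ) (e := e) hI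
      (h φ).finite
  obtain ⟨c, C₁, hc, hC₁, hlow⟩ := N227.CF.low K X
  obtain ⟨ω, C, T₀, hC, h1, h2, h3⟩ := N207.NR.conj_near (f := fun φ k => point (z φ) (b φ k))
    (fun φ => (h φ).isPreconnected) (fun φ => (h φ).isOpen) (fun φ => (h φ).nonempty) (fun φ k => hpa φ (b φ k)) hI hψ
  refine ⟨ω, C / c, max T₀ 1, h1, h2, fun T hT => ⟨(h3 T ((le_max_left _ _).trans hT)).1, ?_, ?_, ?_⟩⟩
  · exact (hlow T ((le_max_right _ _).trans hT)).1
  · refine ⟨0, fun j => ?_⟩
    have h5 : ((0 : X → 𝓞 K) j : K) = 0 := by simp
    have h6 : house (0 : K) = 0 := by simp [house]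
    rw [h5, h6]
    exact zero_le_one.trans ((le_max_right _ _).trans hT)
  · intro L _ _ hL io hemb ξ d hd hd0
    have hT1 : 1 ≤ T := (le_max_right _ _).trans hT
    have hTp : 0 < T := by linarith
    obtain ⟨-, h4⟩ := (h3 T ((le_max_left _ _).trans hT)).2 L hL io hemb ξ d (fun j => ⟨hd0 j, hd j⟩)
    obtain ⟨-, h5, -⟩ := hlow T hT1
    have h6 : ({a ∈ Points K X T |
        (fun j => (a j : K) / (d j : K)) ∈ Exceptional U z b L io (ω T) ξ T (T ^ (-ψ T))}.ncard : ℝ) ≤
        C * T ^ ((Module.finrank ℚ K * Fintype.card X : ℝ) - 1 + 2 * ((ω T : ℝ)⁻¹)) := h4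
    refine h6.trans ?_
    have h7 : (T : ℝ) ^ ((Module.finrank ℚ K * Fintype.card X : ℝ) - 1 + 2 * ((ω T : ℝ)⁻¹)) =
        T ^ (-1 + 2 / (ω T : ℝ)) * T ^ (Module.finrank ℚ K * Fintype.card X) := by
      rw [← Real.rpow_natCast T (Module.finrank ℚ K * Fintype.card X), ← Real.rpow_add hTp]
      congr 1
      push_cast
      ring
    rw [h7]
    have h8 : T ^ (Module.finrank ℚ K * Fintype.card X) ≤ ((Points K X T).ncard : ℝ) / c := by
      rw [le_div_iff₀ hc, mul_comm]
      exact h5
    calc C * (T ^ (-1 + 2 / (ω T : ℝ)) * T ^ (Module.finrank ℚ K * Fintype.card X)) ≤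
          C * (T ^ (-1 + 2 / (ω T : ℝ)) * (((Points K X T).ncard : ℝ) / c)) :=
          mul_le_mul_of_nonneg_left (mul_le_mul_of_nonneg_left h8 (by positivity)) hC
      _ = _ := by ring

end Pool.Agent.Results.MP_209724_lc.GenericSolutions
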